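import Pool.Agent.R583.UR.CChoice
import Pool.Agent.R583.UR.Germ

/-!
# Collection and Global Choice do not imply `ω`-DC over `KMU_R`

There is a model of `KMU_R` with Collection and Global Choice in which `ω`-DC fails.
-/

namespace Pool.Agent.Results.MP_0641b4_lc.ChoiceWithoutDC

open Pool.Agent.R583.UR

/-- Some model of `KMU_R` satisfies Collection and Global Choice but not `ω`-DC. -/
theorem result : ∃ (M : Type 1) (S : ClassStr M), S.KMUR ∧ S.Collection ∧ S.GlobalChoice ∧
    ¬ S.OmegaDC :=
  have : Inhabited KF.{0} := ⟨0⟩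
  ⟨WK KF.{0}, SK KF.{0}, kmurK bddK_KF, collectionK bddK_KF, globalChoiceK, not_omegaDCK⟩

end Pool.Agent.Results.MP_0641b4_lc.ChoiceWithoutDC
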